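import Pool.Agent.H57.ML.Targets

/-!
# MP_6ecee4_co, module LLL: symmetric Lovász local lemma in a finite product space
-/

namespace H25.ML

open H57.ML Finset
open scoped BigOperators
open Classical

section indep

variable {I Λ : Type} [Fintype I] [Fintype Λ]

/-- exchange of two configurations on the coordinates in `s`. -/
noncomputable def swp (s : Finset I) (q : (I → Λ) × (I → Λ)) : (I → Λ) × (I → Λ) :=
  (fun i => if i ∈ s then q.2 i else q.1 i, fun i => if i ∈ s then q.1 i else q.2 i)

omit [Fintype I] [Fintype Λ] in
theorem swp_invol (s : Finset I) : Function.Involutive (swp (Λ := Λ) s) := by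
  rintro ⟨a, b⟩
  refine Prod.ext ?_ ?_ <;> funext i <;> by_cases h : i ∈ s <;> simp [swp, h]

/-- independence of functions of disjoint sets of coordinates. -/
theorem indep_sum (s t : Finset I) (hst : Disjoint s t) (f g : (I → Λ) → ℝ)
    (hf : ∀ ω ω', (∀ i ∈ s, ω i = ω' i) → f ω = f ω')
    (hg : ∀ ω ω', (∀ i ∈ t, ω i = ω' i) → g ω = g ω') :
    (∑ ω, f ω) * (∑ ω, g ω) = (Fintype.card (I → Λ) : ℝ) * ∑ ω, f ω * g ω := by
  have h1 : (∑ ω, f ω) * (∑ ω, g ω) = ∑ q : (I → Λ) × (I → Λ), f q.1 * g q.2 := by
    rw [Finset.sum_mul_sum, Fintype.sum_prod_type]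
  have h2 : ∑ q : (I → Λ) × (I → Λ), f q.1 * g q.2
      = ∑ q : (I → Λ) × (I → Λ), f q.2 * g q.2 := by
    rw [← Equiv.sum_comp (swp_invol (Λ := Λ) s).toPerm (fun q : (I → Λ) × (I → Λ) => f q.2 * g q.2)]
    apply Finset.sum_congr rfl
    rintro ⟨a, b⟩ _
    have e1 : f a = f (swp s (a, b)).2 := by
      apply hf
      intro i hi
      simp [swp, hi]
    have e2 : g b = g (swp s (a, b)).2 := by
      apply hg
      intro i hi
      have : i ∉ s := fun h => (Finset.disjoint_left.mp hst h) hi
      simp [swp, this]
    show f a * g b = f (swp s (a, b)).2 * g (swp s (a, b)).2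
    rw [← e1, ← e2]
  rw [h1, h2, Fintype.sum_prod_type]
  simp only [Finset.sum_const, Finset.card_univ, nsmul_eq_mul]

/-- counting form. -/
theorem indep_card (s t : Finset I) (hst : Disjoint s t) (E F : (I → Λ) → Prop)
    (hE : ∀ ω ω', (∀ i ∈ s, ω i = ω' i) → (E ω ↔ E ω'))
    (hF : ∀ ω ω', (∀ i ∈ t, ω i = ω' i) → (F ω ↔ F ω')) :
    ((univ.filter E).card : ℝ) * (univ.filter F).card
      = (Fintype.card (I → Λ) : ℝ) * (univ.filter (fun ω => E ω ∧ F ω)).card := by
  have h := indep_sum s t hst (fun ω => if E ω then (1 : ℝ) else 0) (fun ω => if F ω then (1 : ℝ) else 0)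
    (fun ω ω' h => by simp only [hE ω ω' h]) (fun ω ω' h => by simp only [hF ω ω' h])
  have e : ∀ ω, (if E ω then (1 : ℝ) else 0) * (if F ω then (1 : ℝ) else 0)
      = if E ω ∧ F ω then (1 : ℝ) else 0 := by
    intro ω
    by_cases h1 : E ω <;> by_cases h2 : F ω <;> simp [h1, h2]
  simp only [e] at h
  simpa only [Finset.sum_boole] using h

end indep

/-- the configuration avoids the events in `S`. -/
def av {I Λ W : Type} (A : W → (I → Λ) → Prop) (S : Finset W) (ω : I → Λ) : Prop :=
  ∀ w ∈ S, ¬ A w ω

theorem lll : LLLStmt := by
  intro I Λ W _ _ _ _ A dep d p hdep hdeg hp h4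
  have hΩ : (0 : ℝ) < (Fintype.card (I → Λ) : ℝ) := by exact_mod_cast Fintype.card_pos
  set Ω : ℝ := (Fintype.card (I → Λ) : ℝ) with hΩdef
  -- number of configurations avoiding the events in `S`
  obtain ⟨Nn, hNn⟩ : ∃ Nn : Finset W → ℝ, ∀ S, Nn S = ((univ.filter (av A S)).card : ℝ) :=
    ⟨_, fun _ => rfl⟩
  by_cases hW : Nonempty W
  swap
  · have : IsEmpty W := not_nonempty_iff.mp hW
    exact ⟨Classical.arbitrary _, fun w => (this.false w).elim⟩
  have hp0 : 0 ≤ p := by
    obtain ⟨w⟩ := hW
    by_contra hneg
    push Not at hneg
    have := hp w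
    have h2 : (0 : ℝ) ≤ ((univ.filter (fun ω => A w ω)).card : ℝ) := by positivity
    nlinarith
  have hd0 : (0 : ℝ) ≤ (d : ℝ) := by positivity
  have avdep : ∀ S : Finset W, ∀ ω ω', (∀ i ∈ S.biUnion dep, ω i = ω' i) → (av A S ω ↔ av A S ω') := by
    intro S ω ω' h
    have : ∀ w ∈ S, (A w ω ↔ A w ω') := fun w hw =>
      hdep w ω ω' (fun i hi => h i (Finset.mem_biUnion.mpr ⟨w, hw, hi⟩))
    constructor
    · intro H w hw; rw [← this w hw]; exact H w hw
    · intro H w hw; rw [this w hw]; exact H w hw
  -- main claim
  have main : ∀ k : ℕ, ∀ S : Finset W, S.card = k → ∀ w, w ∉ S →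
      ((univ.filter (fun ω => A w ω ∧ av A S ω)).card : ℝ) ≤ 2 * p * Nn S := by
    intro k
    induction k using Nat.strong_induction_on with
    | _ k ih =>
      intro S hS w hw
      set S1 := S.filter (fun w' => ¬ Disjoint (dep w) (dep w')) with hS1
      set S2 := S.filter (fun w' => Disjoint (dep w) (dep w')) with hS2
      have hN2 : 0 ≤ Nn S2 := by rw [hNn]; positivity
      have hind : ((univ.filter (fun ω => A w ω)).card : ℝ) * Nn S2
          = Ω * (univ.filter (fun ω => A w ω ∧ av A S2 ω)).card := by
        rw [hNn]
        apply indep_card (dep w) (S2.biUnion dep) _ (A w) (av A S2) (hdep w) (avdep S2)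
        rw [Finset.disjoint_biUnion_right]
        intro w' hw'
        exact (Finset.mem_filter.mp hw').2
      have hA2 : ((univ.filter (fun ω => A w ω ∧ av A S2 ω)).card : ℝ) ≤ p * Nn S2 := by
        have h1 := mul_le_mul_of_nonneg_right (hp w) hN2
        rw [hind] at h1
        have h2 : Ω * ((univ.filter (fun ω => A w ω ∧ av A S2 ω)).card : ℝ) ≤ Ω * (p * Nn S2) := by
          calc _ ≤ p * Ω * Nn S2 := h1
            _ = Ω * (p * Nn S2) := by ring
        exact le_of_mul_le_mul_left h2 hΩ
      have hsub : ((univ.filter (fun ω => A w ω ∧ av A S ω)).card : ℝ)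
          ≤ ((univ.filter (fun ω => A w ω ∧ av A S2 ω)).card : ℝ) := by
        have : (univ.filter (fun ω => A w ω ∧ av A S ω)).card
            ≤ (univ.filter (fun ω => A w ω ∧ av A S2 ω)).card := by
          apply card_le_card
          intro ω hω
          simp only [mem_filter, mem_univ, true_and] at hω ⊢
          exact ⟨hω.1, fun w' hw' => hω.2 w' (Finset.mem_filter.mp hw').1⟩
        exact_mod_cast this
      -- N(S) ≥ N(S2)/2
      have hhalf : Nn S2 ≤ 2 * Nn S := by
        by_cases hS1e : S1 = ∅
        · have hSS : S2 = S := by
            apply Finset.filter_true_of_mem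
            intro w' hw'
            by_contra hcon
            have : w' ∈ S1 := Finset.mem_filter.mpr ⟨hw', hcon⟩
            rw [hS1e] at this
            exact absurd this (Finset.notMem_empty _)
          rw [hSS]
          have : 0 ≤ Nn S := by rw [hNn]; positivity
          linarith
        · obtain ⟨w0, hw0⟩ := Finset.nonempty_iff_ne_empty.mpr hS1e
          have hlt : S2.card < k := by
            rw [← hS]
            apply Finset.card_lt_card
            refine ⟨Finset.filter_subset _ _, fun hcon => ?_⟩
            have h1 := hcon (Finset.mem_filter.mp hw0).1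
            exact (Finset.mem_filter.mp hw0).2 (Finset.mem_filter.mp h1).2
          have hcover : Nn S2 ≤ Nn S
              + ∑ w' ∈ S1, ((univ.filter (fun ω => A w' ω ∧ av A S2 ω)).card : ℝ) := by
            have : (univ.filter (av A S2)).card ≤ (univ.filter (av A S)).card
                + ∑ w' ∈ S1, (univ.filter (fun ω => A w' ω ∧ av A S2 ω)).card := by
              calc (univ.filter (av A S2)).card
                  ≤ ((univ.filter (av A S)) ∪ S1.biUnion
                      (fun w' => univ.filter (fun ω => A w' ω ∧ av A S2 ω))).card := by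
                    apply card_le_card
                    intro ω hω
                    simp only [mem_filter, mem_univ, true_and] at hω
                    simp only [mem_union, mem_filter, mem_univ, true_and, mem_biUnion]
                    by_cases hc : av A S ω
                    · exact Or.inl hc
                    · right
                      simp only [av, not_forall, not_not] at hc
                      obtain ⟨w', hw', hA⟩ := hc
                      refine ⟨w', ?_, hA, hω⟩
                      by_contra hcon
                      have : w' ∈ S2 := by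
                        rw [hS2, Finset.mem_filter]
                        refine ⟨hw', ?_⟩
                        by_contra h3
                        exact hcon (Finset.mem_filter.mpr ⟨hw', h3⟩)
                      exact hω w' this hA
                _ ≤ _ := (card_union_le _ _).trans (Nat.add_le_add_left card_biUnion_le _)
            have h2 : ((univ.filter (av A S2)).card : ℝ) ≤ (((univ.filter (av A S)).card
                + ∑ w' ∈ S1, (univ.filter (fun ω => A w' ω ∧ av A S2 ω)).card : ℕ) : ℝ) := by
              exact_mod_cast this
            push_cast at h2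
            rw [hNn, hNn]
            exact h2
          have hsum : ∑ w' ∈ S1, ((univ.filter (fun ω => A w' ω ∧ av A S2 ω)).card : ℝ)
              ≤ (d : ℝ) * (2 * p * Nn S2) := by
            have hc1 : (S1.card : ℝ) ≤ d := by
              have : S1.card ≤ d := by
                refine (card_le_card ?_).trans (hdeg w)
                intro w' hw'
                have := Finset.mem_filter.mp hw'
                simp only [mem_filter, mem_univ, true_and]
                exact ⟨fun h => hw (h ▸ this.1), this.2⟩
              exact_mod_cast this
            calc _ ≤ ∑ w' ∈ S1, 2 * p * Nn S2 := by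
                  apply Finset.sum_le_sum
                  intro w' hw'
                  apply ih S2.card hlt S2 rfl w'
                  intro hcon
                  exact (Finset.mem_filter.mp hw').2 (Finset.mem_filter.mp hcon).2
              _ = (S1.card : ℝ) * (2 * p * Nn S2) := by
                  rw [Finset.sum_const, nsmul_eq_mul]
              _ ≤ _ := by
                  apply mul_le_mul_of_nonneg_right hc1
                  positivity
          have h5 : (d : ℝ) * (2 * p * Nn S2) ≤ (1 / 2) * Nn S2 := by
            have : 2 * p * d ≤ 1 / 2 := by nlinarith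
            calc (d : ℝ) * (2 * p * Nn S2) = (2 * p * d) * Nn S2 := by ring
              _ ≤ (1 / 2) * Nn S2 := mul_le_mul_of_nonneg_right this hN2
          linarith
      calc ((univ.filter (fun ω => A w ω ∧ av A S ω)).card : ℝ)
          ≤ p * Nn S2 := hsub.trans hA2
        _ ≤ p * (2 * Nn S) := mul_le_mul_of_nonneg_left hhalf hp0
        _ = 2 * p * Nn S := by ring
  -- positivity
  have pos : ∀ S : Finset W, 0 < Nn S := by
    intro S
    induction S using Finset.induction_on with
    | empty =>
      have : (univ.filter (av A ∅)) = univ := by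
        apply Finset.filter_true_of_mem
        intro ω _ w hw
        exact absurd hw (Finset.notMem_empty _)
      rw [hNn, this, Finset.card_univ]
      exact hΩ
    | insert w S hw ihS =>
      have h1 := main S.card S rfl w hw
      have h2 : Nn S ≤ Nn (insert w S) + ((univ.filter (fun ω => A w ω ∧ av A S ω)).card : ℝ) := by
        have : (univ.filter (av A S)).card ≤ (univ.filter (av A (insert w S))).card
            + (univ.filter (fun ω => A w ω ∧ av A S ω)).card := by
          refine (card_le_card ?_).trans (card_union_le _ _)
          intro ω hω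
          simp only [mem_filter, mem_univ, true_and] at hω
          simp only [mem_union, mem_filter, mem_univ, true_and]
          by_cases hA : A w ω
          · exact Or.inr ⟨hA, hω⟩
          · left
            intro w' hw'
            rcases Finset.mem_insert.mp hw' with h | h
            · rw [h]; exact hA
            · exact hω w' h
        rw [hNn, hNn]
        exact_mod_cast this
      have h3 : 2 * p * Nn S ≤ (1 / 2) * Nn S := by
        apply mul_le_mul_of_nonneg_right _ ihS.le
        nlinarith
      linarith
  have hfin := pos univ
  have : (univ.filter (av A univ)).Nonempty := by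
    rw [← Finset.card_pos]
    rw [hNn] at hfin
    exact_mod_cast hfin
  obtain ⟨ω, hω⟩ := this
  exact ⟨ω, fun w => (Finset.mem_filter.mp hω).2 w (Finset.mem_univ w)⟩

end H25.ML
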