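import Pool.Agent.H57.ML.Targets

/-!
# MP_6ecee4_co, module SAM: correlated sampling, random local removal
-/

namespace H25.ML

open H57.ML Finset
open scoped BigOperators
open Classical

section count

variable {X : Type} [Fintype X] [DecidableEq X] {N : ℕ}

theorem card_split (P : (X → Fin N × Fin N) → Prop) [DecidablePred P] :
    (univ.filter P).card = ∑ ρ : X → Fin N,
      (univ.filter (fun l : X → Fin N => P (fun x => (ρ x, l x)))).card := by
  have h : (univ.filter P).card
      = ∑ q : (X → Fin N) × (X → Fin N), if P (fun x => (q.1 x, q.2 x)) then 1 else 0 := by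
    rw [Finset.card_filter]
    exact Fintype.sum_equiv (Equiv.arrowProdEquivProdArrow X (fun _ => Fin N) (fun _ => Fin N)) _ _
      (fun ω => rfl)
  rw [h, Fintype.sum_prod_type]
  apply Finset.sum_congr rfl
  intro ρ _
  rw [Finset.card_filter]

theorem card_pair : Fintype.card (X → Fin N × Fin N)
    = Fintype.card (X → Fin N) * Fintype.card (X → Fin N) := by
  rw [Fintype.card_congr (Equiv.arrowProdEquivProdArrow X (fun _ => Fin N) (fun _ => Fin N)),
    Fintype.card_prod]

theorem card_lab (a : X) (T : Finset (Fin N)) :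
    (univ.filter (fun l : X → Fin N => l a ∈ T)).card * N = T.card * Fintype.card (X → Fin N) := by
  have h1 : (univ.filter (fun l : X → Fin N => l a ∈ T))
      = Fintype.piFinset (fun x => if x = a then T else univ) := by
    ext l
    simp only [mem_filter, mem_univ, true_and, Fintype.mem_piFinset]
    constructor
    · intro h x
      by_cases hx : x = a
      · subst hx; simpa using h
      · simp [hx]
    · intro h
      simpa using h a
  have h2 : (Fintype.piFinset (fun x => if x = a then T else univ)).card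
      = T.card * ∏ x ∈ univ.erase a, N := by
    rw [Fintype.card_piFinset, ← Finset.mul_prod_erase univ _ (Finset.mem_univ a)]
    simp only [if_true]
    congr 1
    apply Finset.prod_congr rfl
    intro x hx
    rw [if_neg (Finset.ne_of_mem_erase hx), Finset.card_univ, Fintype.card_fin]
  have h3 : Fintype.card (X → Fin N) = N * ∏ x ∈ univ.erase a, N := by
    rw [Fintype.card_pi, ← Finset.mul_prod_erase univ _ (Finset.mem_univ a)]
    simp only [Fintype.card_fin]
  rw [h1, h2, h3]
  ring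

theorem cnt_Ico (c c' : ℝ) (hc : 0 ≤ c) :
    ((univ.filter (fun t : Fin N => c' ≤ (t : ℝ) ∧ (t : ℝ) < c)).card : ℝ) ≤ max (c - c') 0 + 1 := by
  have h1 : (univ.filter (fun t : Fin N => c' ≤ (t : ℝ) ∧ (t : ℝ) < c)).card
      ≤ (Finset.Ico ⌈c'⌉₊ ⌈c⌉₊).card := by
    apply Finset.card_le_card_of_injOn (fun t : Fin N => (t : ℕ))
    · intro t ht
      simp only [coe_filter, mem_univ, true_and, Set.mem_ofPred_eq] at ht
      simp only [coe_Ico, Set.mem_Ico]
      exact ⟨Nat.ceil_le.mpr ht.1, Nat.lt_ceil.mpr ht.2⟩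
    · intro t _ t' _ h
      exact Fin.ext h
  rw [Nat.card_Ico] at h1
  have h2 : ((univ.filter (fun t : Fin N => c' ≤ (t : ℝ) ∧ (t : ℝ) < c)).card : ℝ)
      ≤ ((⌈c⌉₊ - ⌈c'⌉₊ : ℕ) : ℝ) := by exact_mod_cast h1
  refine h2.trans ?_
  rcases le_total ⌈c⌉₊ ⌈c'⌉₊ with h | h
  · rw [Nat.sub_eq_zero_of_le h]
    have : 0 ≤ max (c - c') 0 := le_max_right _ _
    push_cast
    linarith
  · rw [Nat.cast_sub h]
    have h3 := Nat.ceil_lt_add_one hc
    have h4 := Nat.le_ceil c'
    have h5 : c - c' ≤ max (c - c') 0 := le_max_left _ _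
    linarith

theorem cnt_lt_le (c : ℝ) (hc : 0 ≤ c) :
    ((univ.filter (fun t : Fin N => (t : ℝ) < c)).card : ℝ) ≤ c + 1 := by
  have h := cnt_Ico (N := N) c 0 hc
  have e : (univ.filter (fun t : Fin N => (0 : ℝ) ≤ (t : ℝ) ∧ (t : ℝ) < c))
      = univ.filter (fun t : Fin N => (t : ℝ) < c) := by
    apply Finset.filter_congr
    intro t _
    have : (0 : ℝ) ≤ (t : ℝ) := by positivity
    simp [this]
  rw [e, sub_zero, max_eq_left hc] at h
  exact h

theorem le_cnt_lt (c : ℝ) (hcN : c ≤ N) :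
    c ≤ ((univ.filter (fun t : Fin N => (t : ℝ) < c)).card : ℝ) := by
  have h1 : (Finset.range ⌈c⌉₊) ⊆ (univ.filter (fun t : Fin N => (t : ℝ) < c)).image
      (fun t : Fin N => (t : ℕ)) := by
    intro k hk
    have hk1 : k < ⌈c⌉₊ := Finset.mem_range.mp hk
    have hk2 : (k : ℝ) < c := Nat.lt_ceil.mp hk1
    have hk3 : k < N := by exact_mod_cast hk2.trans_le hcN
    refine Finset.mem_image.mpr ⟨⟨k, hk3⟩, ?_, rfl⟩
    simp only [mem_filter, mem_univ, true_and]
    exact hk2
  have h2 : ⌈c⌉₊ ≤ (univ.filter (fun t : Fin N => (t : ℝ) < c)).card := by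
    have := (card_le_card h1).trans card_image_le
    rwa [Finset.card_range] at this
  calc c ≤ (⌈c⌉₊ : ℝ) := Nat.le_ceil c
    _ ≤ _ := by exact_mod_cast h2

theorem card_eq_pair (a b : X) (hab : a ≠ b) :
    (univ.filter (fun ρ : X → Fin N => ρ a = ρ b)).card * N ≤ Fintype.card (X → Fin N) := by
  have h : ((univ.filter (fun ρ : X → Fin N => ρ a = ρ b)) ×ˢ (univ : Finset (Fin N))).card
      ≤ (univ : Finset (X → Fin N)).card := by
    apply Finset.card_le_card_of_injOn (fun q => Function.update q.1 a q.2)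
    · intro q _; simp
    · rintro ⟨ρ, t⟩ hq ⟨ρ', t'⟩ hq' heq
      simp only [coe_product, coe_filter, mem_univ, true_and, coe_univ, Set.mem_prod,
        Set.mem_ofPred_eq, Set.mem_univ, and_true] at hq hq'
      have heq' : Function.update ρ a t = Function.update ρ' a t' := heq
      have h1 : t = t' := by
        have := congrFun heq' a
        simpa using this
      have h2 : ∀ x, x ≠ a → ρ x = ρ' x := by
        intro x hx
        have := congrFun heq' x
        simpa [Function.update_of_ne hx] using this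
      have h3 : ρ = ρ' := by
        funext x
        by_cases hx : x = a
        · subst hx
          rw [hq, hq', h2 b (Ne.symm hab)]
        · exact h2 x hx
      rw [h1, h3]
  rw [Finset.card_product, Finset.card_univ, Finset.card_univ, Fintype.card_fin] at h
  exact h

/-- tie of two ranks in `B`. -/
def Tie (B : Finset X) (ρ : X → Fin N) : Prop := ∃ a ∈ B, ∃ b ∈ B, a ≠ b ∧ ρ a = ρ b

theorem card_tie (B : Finset X) :
    (univ.filter (fun ρ : X → Fin N => Tie B ρ)).card * N
      ≤ B.card ^ 2 * Fintype.card (X → Fin N) := by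
  have h1 : (univ.filter (fun ρ : X → Fin N => Tie B ρ)) ⊆
      (B ×ˢ B).biUnion (fun q => univ.filter (fun ρ : X → Fin N => q.1 ≠ q.2 ∧ ρ q.1 = ρ q.2)) := by
    intro ρ hρ
    simp only [mem_filter, mem_univ, true_and] at hρ
    obtain ⟨a, ha, b, hb, hab, h⟩ := hρ
    refine Finset.mem_biUnion.mpr ⟨(a, b), Finset.mem_product.mpr ⟨ha, hb⟩, ?_⟩
    simp only [mem_filter, mem_univ, true_and]
    exact ⟨hab, h⟩
  have h2 := (card_le_card h1).trans card_biUnion_le
  calc _ ≤ (∑ q ∈ B ×ˢ B, (univ.filter (fun ρ : X → Fin N => q.1 ≠ q.2 ∧ ρ q.1 = ρ q.2)).card) * N :=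
        Nat.mul_le_mul_right _ h2
    _ = ∑ q ∈ B ×ˢ B, (univ.filter (fun ρ : X → Fin N => q.1 ≠ q.2 ∧ ρ q.1 = ρ q.2)).card * N := by
        rw [Finset.sum_mul]
    _ ≤ ∑ q ∈ B ×ˢ B, Fintype.card (X → Fin N) := by
        apply Finset.sum_le_sum
        intro q _
        by_cases hq : q.1 = q.2
        · have : (univ.filter (fun ρ : X → Fin N => q.1 ≠ q.2 ∧ ρ q.1 = ρ q.2)) = ∅ := by
            apply Finset.filter_false_of_mem
            intro ρ _ h
            exact h.1 hq
          rw [this]; simp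
        · refine (Nat.mul_le_mul_right _ (card_le_card ?_)).trans (card_eq_pair q.1 q.2 hq)
          intro ρ hρ
          simp only [mem_filter, mem_univ, true_and] at hρ ⊢
          exact hρ.2
    _ = B.card ^ 2 * Fintype.card (X → Fin N) := by
        rw [Finset.sum_const, Finset.card_product, smul_eq_mul]
        ring

/-- `a` is the unique point of minimal rank in `B`. -/
def Um (B : Finset X) (a : X) (ρ : X → Fin N) : Prop := ∀ b ∈ B, b ≠ a → ρ a < ρ b

theorem card_um (B : Finset X) (a : X) :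
    B.card * (univ.filter (fun ρ : X → Fin N => Um B a ρ)).card ≤ Fintype.card (X → Fin N) := by
  have h1 : ∀ b ∈ B, (univ.filter (fun ρ : X → Fin N => Um B a ρ)).card
      ≤ (univ.filter (fun ρ : X → Fin N => Um B b ρ)).card := by
    intro b hb
    apply Finset.card_le_card_of_injOn (fun ρ => ρ ∘ Equiv.swap a b)
    · intro ρ hρ
      simp only [coe_filter, mem_univ, true_and, Set.mem_ofPred_eq] at hρ ⊢
      intro x hx hxb
      have e1 : (ρ ∘ Equiv.swap a b) b = ρ a := by simp
      rw [e1]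
      have e2 : Equiv.swap a b x ∈ B := by
        rcases eq_or_ne x a with h | h
        · rw [h, Equiv.swap_apply_left]; exact hb
        · rw [Equiv.swap_apply_of_ne_of_ne h hxb]; exact hx
      have e3 : Equiv.swap a b x ≠ a := by
        intro h
        apply hxb
        have := congrArg (Equiv.swap a b) h
        rw [Equiv.swap_apply_self, Equiv.swap_apply_left] at this
        exact this
      exact hρ _ e2 e3
    · intro ρ _ ρ' _ h
      funext x
      have := congrFun h (Equiv.swap a b x)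
      simpa using this
  have h2 : ∑ b ∈ B, (univ.filter (fun ρ : X → Fin N => Um B b ρ)).card
      ≤ Fintype.card (X → Fin N) := by
    rw [← Finset.card_biUnion, ← Finset.card_univ]
    · exact card_le_card (Finset.subset_univ _)
    · intro x hx y hy hxy
      rw [Function.onFun, Finset.disjoint_left]
      intro ρ h1 h2
      simp only [mem_filter, mem_univ, true_and] at h1 h2
      exact absurd (h1 y hy (Ne.symm hxy)) (not_lt.mpr (h2 x hx hxy).le)
  calc B.card * (univ.filter (fun ρ : X → Fin N => Um B a ρ)).card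
      = ∑ b ∈ B, (univ.filter (fun ρ : X → Fin N => Um B a ρ)).card := by
        rw [Finset.sum_const, smul_eq_mul]
    _ ≤ _ := (Finset.sum_le_sum h1).trans h2

/-- the removal rule: some point of minimal rank in `A` has label below `c`. -/
def RR (A : Finset X) (c : ℝ) (ω : X → Fin N × Fin N) : Prop :=
  ∃ a ∈ A, (∀ b ∈ A, (ω a).1 ≤ (ω b).1) ∧ ((ω a).2 : ℝ) < c

theorem rr_lower (A : Finset X) (hA : A.Nonempty) (c : ℝ) (hcN : c ≤ N) (hN : 0 < N) :
    (c / N) * (Fintype.card (X → Fin N × Fin N) : ℝ)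
      ≤ ((univ.filter (fun ω : X → Fin N × Fin N => RR A c ω)).card : ℝ) := by
  have hN' : (0 : ℝ) < N := by exact_mod_cast hN
  rw [card_split, card_pair]
  push_cast
  set M : ℝ := (Fintype.card (X → Fin N) : ℝ) with hM
  have key : ∀ ρ : X → Fin N, (c / N) * M ≤
      ((univ.filter (fun l : X → Fin N => RR A c (fun x => (ρ x, l x)))).card : ℝ) := by
    intro ρ
    obtain ⟨a, ha, hmin⟩ := Finset.exists_min_image A ρ hA
    have h1 := card_lab a (univ.filter (fun t : Fin N => (t : ℝ) < c))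
    have h2 : ((univ.filter (fun l : X → Fin N => l a ∈
        (univ.filter (fun t : Fin N => (t : ℝ) < c)))).card : ℝ) * N
        = ((univ.filter (fun t : Fin N => (t : ℝ) < c)).card : ℝ) * M := by
      rw [hM]; exact_mod_cast h1
    have h3 := le_cnt_lt (N := N) c hcN
    have hM0 : 0 ≤ M := by positivity
    have h4 : (c / N) * M ≤ ((univ.filter (fun l : X → Fin N => l a ∈
        (univ.filter (fun t : Fin N => (t : ℝ) < c)))).card : ℝ) := by
      rw [div_mul_eq_mul_div, div_le_iff₀ hN', h2]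
      exact mul_le_mul_of_nonneg_right h3 hM0
    refine h4.trans ?_
    have : (univ.filter (fun l : X → Fin N => l a ∈
        (univ.filter (fun t : Fin N => (t : ℝ) < c)))).card
        ≤ (univ.filter (fun l : X → Fin N => RR A c (fun x => (ρ x, l x)))).card := by
      apply card_le_card
      intro l hl
      simp only [mem_filter, mem_univ, true_and] at hl ⊢
      exact ⟨a, ha, hmin, hl⟩
    exact_mod_cast this
  calc (c / N) * (M * M) = ∑ ρ : X → Fin N, (c / N) * M := by
        rw [Finset.sum_const, Finset.card_univ, nsmul_eq_mul, ← hM]; ring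
    _ ≤ _ := Finset.sum_le_sum (fun ρ _ => key ρ)

theorem lab_le (a : X) (P : Fin N → Prop) [DecidablePred P] (β : ℝ) (hN : 0 < N)
    (hP : ((univ.filter P).card : ℝ) ≤ β * N) :
    ((univ.filter (fun l : X → Fin N => P (l a))).card : ℝ) ≤ β * (Fintype.card (X → Fin N) : ℝ) := by
  have hN' : (0 : ℝ) < N := by exact_mod_cast hN
  have h1 := card_lab a (univ.filter P)
  have h2 : ((univ.filter (fun l : X → Fin N => P (l a))).card : ℝ) * N
      = ((univ.filter P).card : ℝ) * (Fintype.card (X → Fin N) : ℝ) := by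
    have e : (univ.filter (fun l : X → Fin N => l a ∈ univ.filter P))
        = univ.filter (fun l : X → Fin N => P (l a)) := by
      apply Finset.filter_congr
      intro l _
      simp
    rw [e] at h1
    exact_mod_cast h1
  have hM0 : (0 : ℝ) ≤ (Fintype.card (X → Fin N) : ℝ) := by positivity
  have h3 : ((univ.filter (fun l : X → Fin N => P (l a))).card : ℝ) * N
      ≤ β * (Fintype.card (X → Fin N) : ℝ) * N := by
    rw [h2]
    calc _ ≤ β * N * (Fintype.card (X → Fin N) : ℝ) := mul_le_mul_of_nonneg_right hP hM0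
      _ = _ := by ring
  exact le_of_mul_le_mul_right h3 hN'

/-- probability that `u` is removed but `u'` is not. -/
theorem rr_pair (A A' : Finset X) (hA : A.Nonempty) (g g' : ℝ) (hg : 0 ≤ g)
    (hN : 0 < N) (qa : ℝ) (hqa : 0 < qa) (hqA : qa ≤ ((A ∪ A').card : ℝ)) (sd : ℝ)
    (hsd : (((A \ A') ∪ (A' \ A)).card : ℝ) ≤ sd) :
    ((univ.filter (fun ω : X → Fin N × Fin N => RR A (g * N) ω ∧ ¬ RR A' (g' * N) ω)).card : ℝ)
      ≤ (((A ∪ A').card : ℝ) ^ 2 / N + sd / qa * (g + 1 / N) + (max (g - g') 0 + 1 / N)) *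
        (Fintype.card (X → Fin N × Fin N) : ℝ) := by
  have hN' : (0 : ℝ) < N := by exact_mod_cast hN
  rw [card_split, card_pair]
  push_cast
  set M : ℝ := (Fintype.card (X → Fin N) : ℝ) with hM
  have hM0 : 0 ≤ M := by positivity
  set B := A ∪ A' with hB
  set Δ := (A \ A') ∪ (A' \ A) with hΔ
  have hγ : 0 ≤ g + 1 / (N : ℝ) := by positivity
  have hμ : 0 ≤ max (g - g') 0 + 1 / (N : ℝ) := by
    have : 0 ≤ max (g - g') 0 := le_max_right _ _
    positivity
  have key : ∀ ρ : X → Fin N,
      ((univ.filter (fun l : X → Fin N => RR A (g * N) (fun x => (ρ x, l x)) ∧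
        ¬ RR A' (g' * N) (fun x => (ρ x, l x)))).card : ℝ)
      ≤ ((if Tie B ρ then (1 : ℝ) else 0) + (∑ a ∈ Δ, if Um B a ρ then (1 : ℝ) else 0) * (g + 1 / N)
          + (max (g - g') 0 + 1 / N)) * M := by
    intro ρ
    have hs0 : 0 ≤ (∑ a ∈ Δ, if Um B a ρ then (1 : ℝ) else 0) :=
      Finset.sum_nonneg (fun a _ => by split_ifs <;> norm_num)
    by_cases hT : Tie B ρ
    · rw [if_pos hT]
      have h1 : ((univ.filter (fun l : X → Fin N => RR A (g * N) (fun x => (ρ x, l x)) ∧
        ¬ RR A' (g' * N) (fun x => (ρ x, l x)))).card : ℝ) ≤ M := by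
        rw [hM]
        have := Finset.card_le_univ (univ.filter (fun l : X → Fin N =>
          RR A (g * N) (fun x => (ρ x, l x)) ∧ ¬ RR A' (g' * N) (fun x => (ρ x, l x))))
        exact_mod_cast this
      refine h1.trans ?_
      have h2 : (1 : ℝ) ≤ 1 + (∑ a ∈ Δ, if Um B a ρ then (1 : ℝ) else 0) * (g + 1 / N)
          + (max (g - g') 0 + 1 / N) := by
        have := mul_nonneg hs0 hγ
        linarith
      calc M = 1 * M := (one_mul _).symm
        _ ≤ _ := mul_le_mul_of_nonneg_right h2 hM0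
    · rw [if_neg hT]
      have huniq : ∀ a ∈ B, ∀ b ∈ B, ρ a = ρ b → a = b := by
        intro a ha b hb h
        by_contra hab
        exact hT ⟨a, ha, b, hb, hab, h⟩
      have hBne : B.Nonempty := hA.mono Finset.subset_union_left
      obtain ⟨s, hs, hsmin⟩ := Finset.exists_min_image B ρ hBne
      have hUm : Um B s ρ := by
        intro b hb hbs
        exact lt_of_le_of_ne (hsmin b hb) (fun h => hbs (huniq s hs b hb h).symm)
      by_cases hsΔ : s ∈ Δ
      · -- the minimum is not common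
        obtain ⟨z, hz, hzmin⟩ := Finset.exists_min_image A ρ hA
        have h1 : ((univ.filter (fun l : X → Fin N => RR A (g * N) (fun x => (ρ x, l x)) ∧
            ¬ RR A' (g' * N) (fun x => (ρ x, l x)))).card : ℝ)
            ≤ ((univ.filter (fun l : X → Fin N => ((l z : Fin N) : ℝ) < g * N)).card : ℝ) := by
          have : (univ.filter (fun l : X → Fin N => RR A (g * N) (fun x => (ρ x, l x)) ∧
            ¬ RR A' (g' * N) (fun x => (ρ x, l x)))).card
            ≤ (univ.filter (fun l : X → Fin N => ((l z : Fin N) : ℝ) < g * N)).card := by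
            apply card_le_card
            intro l hl
            simp only [mem_filter, mem_univ, true_and] at hl ⊢
            obtain ⟨⟨a, ha, hamin, hal⟩, _⟩ := hl
            have e : a = z := by
              apply huniq a (Finset.mem_union_left _ ha) z (Finset.mem_union_left _ hz)
              exact le_antisymm (hamin z hz) (hzmin a ha)
            rw [← e]; exact hal
          exact_mod_cast this
        have h2 := lab_le (N := N) z (fun t : Fin N => (t : ℝ) < g * N) (g + 1 / N) hN (by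
          have := cnt_lt_le (N := N) (g * N) (by positivity)
          calc _ ≤ g * N + 1 := this
            _ = (g + 1 / N) * N := by field_simp)
        refine (h1.trans h2).trans ?_
        rw [← hM]
        apply mul_le_mul_of_nonneg_right _ hM0
        have h3 : (1 : ℝ) ≤ ∑ a ∈ Δ, if Um B a ρ then (1 : ℝ) else 0 := by
          calc (1 : ℝ) = if Um B s ρ then (1 : ℝ) else 0 := by rw [if_pos hUm]
            _ ≤ _ := Finset.single_le_sum (f := fun a => if Um B a ρ then (1 : ℝ) else 0)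
                (fun a _ => by show (0:ℝ) ≤ if Um B a ρ then (1 : ℝ) else 0; split_ifs <;> norm_num) hsΔ
        have h4 : 1 * (g + 1 / (N : ℝ)) ≤ (∑ a ∈ Δ, if Um B a ρ then (1 : ℝ) else 0) * (g + 1 / N) :=
          mul_le_mul_of_nonneg_right h3 hγ
        linarith
      · -- common minimum
        have hsA : s ∈ A ∧ s ∈ A' := by
          simp only [hB, hΔ, mem_union, mem_sdiff] at hs hsΔ
          tauto
        have h1 : ((univ.filter (fun l : X → Fin N => RR A (g * N) (fun x => (ρ x, l x)) ∧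
            ¬ RR A' (g' * N) (fun x => (ρ x, l x)))).card : ℝ)
            ≤ ((univ.filter (fun l : X → Fin N => g' * N ≤ ((l s : Fin N) : ℝ) ∧
              ((l s : Fin N) : ℝ) < g * N)).card : ℝ) := by
          have : (univ.filter (fun l : X → Fin N => RR A (g * N) (fun x => (ρ x, l x)) ∧
            ¬ RR A' (g' * N) (fun x => (ρ x, l x)))).card
            ≤ (univ.filter (fun l : X → Fin N => g' * N ≤ ((l s : Fin N) : ℝ) ∧
              ((l s : Fin N) : ℝ) < g * N)).card := by
            apply card_le_card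
            intro l hl
            simp only [mem_filter, mem_univ, true_and] at hl ⊢
            obtain ⟨⟨a, ha, hamin, hal⟩, hno⟩ := hl
            have e : a = s := by
              apply huniq a (Finset.mem_union_left _ ha) s hs
              exact le_antisymm (hamin s hsA.1) (hsmin a (Finset.mem_union_left _ ha))
            refine ⟨?_, by rw [← e]; exact hal⟩
            by_contra hlt
            push Not at hlt
            exact hno ⟨s, hsA.2, fun b hb => hsmin b (Finset.mem_union_right _ hb), hlt⟩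
          exact_mod_cast this
        have h2 := lab_le (N := N) s (fun t : Fin N => g' * N ≤ (t : ℝ) ∧ (t : ℝ) < g * N)
          (max (g - g') 0 + 1 / N) hN (by
          have := cnt_Ico (N := N) (g * N) (g' * N) (by positivity)
          calc _ ≤ max (g * N - g' * N) 0 + 1 := this
            _ = (max (g - g') 0 + 1 / N) * N := by
              have e1 : max (g * N - g' * N) 0 = max (g - g') 0 * N := by
                rw [← sub_mul]
                rcases le_total (g - g') 0 with h | h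
                · rw [max_eq_right h, max_eq_right (mul_nonpos_of_nonpos_of_nonneg h hN'.le)]
                  ring
                · rw [max_eq_left h, max_eq_left (mul_nonneg h hN'.le)]
              rw [e1]; field_simp)
        refine (h1.trans h2).trans ?_
        rw [← hM]
        apply mul_le_mul_of_nonneg_right _ hM0
        have := mul_nonneg hs0 hγ
        linarith
  have hsum : ∑ ρ : X → Fin N, ((if Tie B ρ then (1 : ℝ) else 0)
        + (∑ a ∈ Δ, if Um B a ρ then (1 : ℝ) else 0) * (g + 1 / N)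
          + (max (g - g') 0 + 1 / N)) * M
      ≤ ((B.card : ℝ) ^ 2 / N + sd / qa * (g + 1 / N) + (max (g - g') 0 + 1 / N)) * (M * M) := by
    rw [← Finset.sum_mul]
    have e1 : ∑ ρ : X → Fin N, ((if Tie B ρ then (1 : ℝ) else 0)
        + (∑ a ∈ Δ, if Um B a ρ then (1 : ℝ) else 0) * (g + 1 / N)
          + (max (g - g') 0 + 1 / N))
        = ((univ.filter (fun ρ : X → Fin N => Tie B ρ)).card : ℝ)
          + (∑ a ∈ Δ, ((univ.filter (fun ρ : X → Fin N => Um B a ρ)).card : ℝ)) * (g + 1 / N)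
          + (max (g - g') 0 + 1 / N) * M := by
      rw [Finset.sum_add_distrib, Finset.sum_add_distrib, ← Finset.sum_mul, Finset.sum_comm,
        Finset.sum_const, Finset.card_univ, nsmul_eq_mul, ← hM]
      simp only [Finset.sum_boole]
      ring
    rw [e1]
    have t1 : ((univ.filter (fun ρ : X → Fin N => Tie B ρ)).card : ℝ) ≤ (B.card : ℝ) ^ 2 / N * M := by
      have := card_tie (N := N) B
      have h : ((univ.filter (fun ρ : X → Fin N => Tie B ρ)).card : ℝ) * N ≤ (B.card : ℝ) ^ 2 * M := by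
        rw [hM]; exact_mod_cast this
      rw [div_mul_eq_mul_div, le_div_iff₀ hN']
      exact h
    have hB0 : 0 < (B.card : ℝ) := lt_of_lt_of_le hqa hqA
    have t2 : ∑ a ∈ Δ, ((univ.filter (fun ρ : X → Fin N => Um B a ρ)).card : ℝ) ≤ sd / qa * M := by
      have h1 : ∀ a ∈ Δ, ((univ.filter (fun ρ : X → Fin N => Um B a ρ)).card : ℝ) ≤ M / qa := by
        intro a _
        have := card_um (N := N) B a
        have h : (B.card : ℝ) * ((univ.filter (fun ρ : X → Fin N => Um B a ρ)).card : ℝ) ≤ M := by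
          rw [hM]; exact_mod_cast this
        rw [le_div_iff₀ hqa]
        calc _ ≤ ((univ.filter (fun ρ : X → Fin N => Um B a ρ)).card : ℝ) * (B.card : ℝ) :=
              mul_le_mul_of_nonneg_left hqA (by positivity)
          _ ≤ M := by rw [mul_comm]; exact h
      calc _ ≤ ∑ a ∈ Δ, M / qa := Finset.sum_le_sum h1
        _ = (Δ.card : ℝ) * (M / qa) := by rw [Finset.sum_const, nsmul_eq_mul]
        _ ≤ sd * (M / qa) := mul_le_mul_of_nonneg_right hsd (by positivity)
        _ = sd / qa * M := by ring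
    have t3 := mul_le_mul_of_nonneg_right t2 hγ
    calc _ ≤ ((B.card : ℝ) ^ 2 / N * M + sd / qa * M * (g + 1 / N) + (max (g - g') 0 + 1 / N) * M) * M := by
          apply mul_le_mul_of_nonneg_right _ hM0
          linarith
      _ = _ := by ring
  exact (Finset.sum_le_sum (fun ρ _ => key ρ)).trans hsum

end count

section sam

variable {V : Type} [Fintype V] {Q : ℕ}

/-- the multiplicity set of `ζ u`. -/
noncomputable def AA (Q : ℕ) (ζ : V → V → ℝ) (u : V) : Finset (V × Fin Q) :=
  univ.filter (fun q => (q.2 : ℝ) < ζ u q.1 * Q)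

theorem card_prod_filter (P : V × Fin Q → Prop) [DecidablePred P] :
    (univ.filter P).card = ∑ z, (univ.filter (fun i : Fin Q => P (z, i))).card := by
  rw [Finset.card_filter, Fintype.sum_prod_type]
  apply Finset.sum_congr rfl
  intro z _
  rw [Finset.card_filter]

theorem prob_le_one {ζ : V → V → ℝ} (hζ : IsProb ζ) (u z : V) : ζ u z ≤ 1 := by
  rw [← hζ.2 u]
  exact Finset.single_le_sum (f := fun z => ζ u z) (fun z _ => hζ.1 u z) (Finset.mem_univ z)

theorem le_card_AA {ζ : V → V → ℝ} (hζ : IsProb ζ) (u : V) : (Q : ℝ) ≤ ((AA Q ζ u).card : ℝ) := by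
  rw [AA, card_prod_filter]
  push_cast
  calc (Q : ℝ) = ∑ z, ζ u z * Q := by rw [← Finset.sum_mul, hζ.2 u, one_mul]
    _ ≤ _ := by
      apply Finset.sum_le_sum
      intro z _
      apply le_cnt_lt
      have := prob_le_one hζ u z
      have hQ : (0 : ℝ) ≤ Q := by positivity
      nlinarith

theorem supp_le {H : SimpleGraph V} {D S : ℕ} (hD : DegLE H D) {ζ : V → V → ℝ}
    (hr : ∀ u z, ζ u z ≠ 0 → Within H S u z) (u : V) :
    ∑ z, (if ζ u z = 0 then (0 : ℝ) else 1) ≤ ((D : ℝ) + 1) ^ S := by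
  have h1 : (univ.filter (fun z => ζ u z ≠ 0)).card ≤ (D + 1) ^ S := by
    refine (card_le_card ?_).trans (card_ball_le hD S u)
    intro z hz
    simp only [mem_filter, mem_univ, true_and] at hz ⊢
    exact hr u z hz
  have h2 : ∑ z, (if ζ u z = 0 then (0 : ℝ) else 1) = ((univ.filter (fun z => ζ u z ≠ 0)).card : ℝ) := by
    rw [Finset.card_filter]
    push_cast
    apply Finset.sum_congr rfl
    intro z _
    by_cases h : ζ u z = 0 <;> simp [h]
  rw [h2]
  exact_mod_cast h1

theorem card_AA_le {H : SimpleGraph V} {D S : ℕ} (hD : DegLE H D) {ζ : V → V → ℝ} (hζ : IsProb ζ)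
    (hr : ∀ u z, ζ u z ≠ 0 → Within H S u z) (u : V) :
    ((AA Q ζ u).card : ℝ) ≤ Q + ((D : ℝ) + 1) ^ S := by
  rw [AA, card_prod_filter]
  push_cast
  have h : ∀ z, ((univ.filter (fun i : Fin Q => (i : ℝ) < ζ u z * Q)).card : ℝ)
      ≤ ζ u z * Q + (if ζ u z = 0 then (0 : ℝ) else 1) := by
    intro z
    by_cases hz : ζ u z = 0
    · have : (univ.filter (fun i : Fin Q => (i : ℝ) < ζ u z * Q)) = ∅ := by
        apply Finset.filter_false_of_mem
        intro i _
        rw [hz, zero_mul]
        exact not_lt.mpr (by positivity)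
      rw [this, hz]; simp
    · rw [if_neg hz]
      exact cnt_lt_le _ (mul_nonneg (hζ.1 u z) (by positivity))
  calc _ ≤ ∑ z, (ζ u z * Q + (if ζ u z = 0 then (0 : ℝ) else 1)) := Finset.sum_le_sum (fun z _ => h z)
    _ = Q + ∑ z, (if ζ u z = 0 then (0 : ℝ) else 1) := by
      rw [Finset.sum_add_distrib, ← Finset.sum_mul, hζ.2 u, one_mul]
    _ ≤ _ := by linarith [supp_le hD hr u]

theorem card_AA_sdiff_le {H : SimpleGraph V} {D S : ℕ} (hD : DegLE H D) {ζ : V → V → ℝ}
    (hζ : IsProb ζ) (hr : ∀ u z, ζ u z ≠ 0 → Within H S u z) (u u' : V) :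
    ((AA Q ζ u \ AA Q ζ u').card : ℝ) ≤ (∑ z, max (ζ u z - ζ u' z) 0) * Q + ((D : ℝ) + 1) ^ S := by
  have e0 : AA Q ζ u \ AA Q ζ u'
      = univ.filter (fun q : V × Fin Q => ζ u' q.1 * Q ≤ (q.2 : ℝ) ∧ (q.2 : ℝ) < ζ u q.1 * Q) := by
    ext q
    simp only [AA, mem_sdiff, mem_filter, mem_univ, true_and, not_lt]
    tauto
  rw [e0, card_prod_filter]
  push_cast
  have h : ∀ z, ((univ.filter (fun i : Fin Q => ζ u' z * Q ≤ (i : ℝ) ∧ (i : ℝ) < ζ u z * Q)).card : ℝ)
      ≤ max (ζ u z - ζ u' z) 0 * Q + (if ζ u z = 0 then (0 : ℝ) else 1) := by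
    intro z
    by_cases hz : ζ u z = 0
    · have : (univ.filter (fun i : Fin Q => ζ u' z * Q ≤ (i : ℝ) ∧ (i : ℝ) < ζ u z * Q)) = ∅ := by
        apply Finset.filter_false_of_mem
        intro i _ hi
        have h2 := hi.2
        rw [hz, zero_mul] at h2
        exact absurd h2 (not_lt.mpr (by positivity))
      rw [this, if_pos hz]
      have : 0 ≤ max (ζ u z - ζ u' z) 0 * Q := mul_nonneg (le_max_right _ _) (by positivity)
      simpa using this
    · rw [if_neg hz]
      have h1 := cnt_Ico (N := Q) (ζ u z * Q) (ζ u' z * Q) (mul_nonneg (hζ.1 u z) (by positivity))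
      have e1 : max (ζ u z * Q - ζ u' z * Q) 0 = max (ζ u z - ζ u' z) 0 * Q := by
        have hQ : (0 : ℝ) ≤ Q := by positivity
        rw [← sub_mul]
        rcases le_total (ζ u z - ζ u' z) 0 with h | h
        · rw [max_eq_right h, max_eq_right (mul_nonpos_of_nonpos_of_nonneg h hQ)]
          ring
        · rw [max_eq_left h, max_eq_left (mul_nonneg h hQ)]
      rw [e1] at h1
      exact h1
  calc _ ≤ ∑ z, (max (ζ u z - ζ u' z) 0 * Q + (if ζ u z = 0 then (0 : ℝ) else 1)) :=
        Finset.sum_le_sum (fun z _ => h z)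
    _ = (∑ z, max (ζ u z - ζ u' z) 0) * Q + ∑ z, (if ζ u z = 0 then (0 : ℝ) else 1) := by
      rw [Finset.sum_add_distrib, ← Finset.sum_mul]
    _ ≤ _ := by linarith [supp_le hD hr u]

theorem card_AA_symm_le {H : SimpleGraph V} {D S : ℕ} (hD : DegLE H D) {ζ : V → V → ℝ}
    (hζ : IsProb ζ) (hr : ∀ u z, ζ u z ≠ 0 → Within H S u z) (u u' : V) :
    (((AA Q ζ u \ AA Q ζ u') ∪ (AA Q ζ u' \ AA Q ζ u)).card : ℝ)
      ≤ l1 ζ u u' * Q + 2 * ((D : ℝ) + 1) ^ S := by
  have h0 : (((AA Q ζ u \ AA Q ζ u') ∪ (AA Q ζ u' \ AA Q ζ u)).card : ℝ)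
      ≤ ((AA Q ζ u \ AA Q ζ u').card : ℝ) + ((AA Q ζ u' \ AA Q ζ u).card : ℝ) := by
    exact_mod_cast card_union_le _ _
  have h1 := card_AA_sdiff_le (Q := Q) hD hζ hr u u'
  have h2 := card_AA_sdiff_le (Q := Q) hD hζ hr u' u
  have e : l1 ζ u u' = (∑ z, max (ζ u z - ζ u' z) 0) + ∑ z, max (ζ u' z - ζ u z) 0 := by
    rw [l1, ← Finset.sum_add_distrib]
    apply Finset.sum_congr rfl
    intro z _
    rcases le_total (ζ u z) (ζ u' z) with h | h
    · rw [abs_of_nonpos (by linarith), max_eq_right (by linarith), max_eq_left (by linarith)]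
      ring
    · rw [abs_of_nonneg (by linarith), max_eq_left (by linarith), max_eq_right (by linarith)]
      ring
  rw [e]
  have : ((∑ z, max (ζ u z - ζ u' z) 0) + ∑ z, max (ζ u' z - ζ u z) 0) * (Q : ℝ)
      = (∑ z, max (ζ u z - ζ u' z) 0) * Q + (∑ z, max (ζ u' z - ζ u z) 0) * Q := by ring
  linarith

theorem l1_le_two {ζ : V → V → ℝ} (hζ : IsProb ζ) (u u' : V) : l1 ζ u u' ≤ 2 := by
  rw [l1]
  calc ∑ z, |ζ u z - ζ u' z| ≤ ∑ z, (ζ u z + ζ u' z) := by
        apply Finset.sum_le_sum
        intro z _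
        rw [abs_le]
        constructor <;> linarith [hζ.1 u z, hζ.1 u' z]
    _ = 2 := by rw [Finset.sum_add_distrib, hζ.2 u, hζ.2 u']; norm_num

theorem l1_nonneg' (ζ : V → V → ℝ) (u u' : V) : 0 ≤ l1 ζ u u' :=
  Finset.sum_nonneg (fun _ _ => abs_nonneg _)

end sam

theorem sam : SamStmt := by
  intro D S e he
  set b : ℝ := ((D : ℝ) + 1) ^ S with hb
  have hb1 : 1 ≤ b := one_le_pow₀ (by linarith [(Nat.cast_nonneg D : (0 : ℝ) ≤ D)])
  have hD0 : (0 : ℝ) ≤ D := Nat.cast_nonneg D
  obtain ⟨Q, hQdef⟩ : ∃ Q : ℕ, Q = ⌈8 * D * b / e⌉₊ + 1 := ⟨_, rfl⟩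
  obtain ⟨N, hNdef⟩ : ∃ N : ℕ, N = ⌈2 * D * (4 * ((Q : ℝ) + b) ^ 2 + 3) / e⌉₊ + 1 := ⟨_, rfl⟩
  have hQ0 : 0 < Q := by omega
  have hN0 : 0 < N := by omega
  have hQ' : (0 : ℝ) < Q := by exact_mod_cast hQ0
  have hN' : (0 : ℝ) < N := by exact_mod_cast hN0
  have hN1 : (1 : ℝ) ≤ N := by exact_mod_cast hN0
  have hQb : 4 * D * b / Q ≤ e / 2 := by
    have h1 : 8 * D * b / e ≤ Q := by
      rw [hQdef]; push_cast
      linarith [Nat.le_ceil (8 * D * b / e)]
    rw [div_le_iff₀ he] at h1
    rw [div_le_iff₀ hQ']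
    linarith
  have hNb : D * (4 * ((Q : ℝ) + b) ^ 2 + 3) / N ≤ e / 2 := by
    have h1 : 2 * D * (4 * ((Q : ℝ) + b) ^ 2 + 3) / e ≤ N := by
      rw [hNdef]; push_cast
      linarith [Nat.le_ceil (2 * D * (4 * ((Q : ℝ) + b) ^ 2 + 3) / e)]
    rw [div_le_iff₀ he] at h1
    rw [div_le_iff₀ hN']
    linarith
  refine ⟨Q, N, hQ0, hN0, ?_⟩
  intro V _ H hD ζ hζ hr g hg
  have hne : ∀ u, (AA Q ζ u).Nonempty := by
    intro u
    rw [← Finset.card_pos]
    have := le_card_AA (Q := Q) hζ u
    exact_mod_cast lt_of_lt_of_le hQ' this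
  refine ⟨fun ω u => RR (AA Q ζ u) (g u * N) ω, ?_, ?_, ?_, ?_, ?_⟩
  · intro ω u hgu
    obtain ⟨a, ha, hmin⟩ := Finset.exists_min_image (AA Q ζ u) (fun a => (ω a).1) (hne u)
    refine ⟨a, ha, hmin, ?_⟩
    rw [hgu, one_mul]
    exact_mod_cast (ω a).2.isLt
  · rintro ω u hgu ⟨a, _, _, hlt⟩
    rw [hgu, zero_mul] at hlt
    exact absurd hlt (not_lt.mpr (by positivity))
  · intro u ω ω' hωω'
    have h : ∀ a ∈ AA Q ζ u, ω a = ω' a := by
      rintro ⟨z, i⟩ ha
      apply hωω' z i
      apply hr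
      intro hz
      rw [AA, mem_filter] at ha
      have h2 := ha.2
      simp only [hz, zero_mul] at h2
      exact absurd h2 (not_lt.mpr (by positivity))
    constructor
    · rintro ⟨a, ha, hmin, hlt⟩
      refine ⟨a, ha, fun b hb => ?_, ?_⟩
      · rw [← h a ha, ← h b hb]; exact hmin b hb
      · rw [← h a ha]; exact hlt
    · rintro ⟨a, ha, hmin, hlt⟩
      refine ⟨a, ha, fun b hb => ?_, ?_⟩
      · rw [h a ha, h b hb]; exact hmin b hb
      · rw [h a ha]; exact hlt
  · intro u
    set M2 : ℝ := (Fintype.card (V × Fin Q → Fin N × Fin N) : ℝ) with hM2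
    have hM20 : 0 ≤ M2 := by positivity
    set nb := univ.filter (fun u' => H.Adj u u') with hnb
    have h1 : ((univ.filter (fun ω : V × Fin Q → Fin N × Fin N => RR (AA Q ζ u) (g u * N) ω ∧
          ∃ u', H.Adj u u' ∧ ¬ RR (AA Q ζ u') (g u' * N) ω)).card : ℝ)
        ≤ ∑ u' ∈ nb, ((univ.filter (fun ω : V × Fin Q → Fin N × Fin N =>
          RR (AA Q ζ u) (g u * N) ω ∧ ¬ RR (AA Q ζ u') (g u' * N) ω)).card : ℝ) := by
      have : (univ.filter (fun ω : V × Fin Q → Fin N × Fin N => RR (AA Q ζ u) (g u * N) ω ∧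
          ∃ u', H.Adj u u' ∧ ¬ RR (AA Q ζ u') (g u' * N) ω)).card
          ≤ ∑ u' ∈ nb, (univ.filter (fun ω : V × Fin Q → Fin N × Fin N =>
          RR (AA Q ζ u) (g u * N) ω ∧ ¬ RR (AA Q ζ u') (g u' * N) ω)).card := by
        refine (card_le_card ?_).trans card_biUnion_le
        intro ω hω
        simp only [mem_filter, mem_univ, true_and] at hω
        obtain ⟨hω1, u', hadj, hω2⟩ := hω
        refine Finset.mem_biUnion.mpr ⟨u', ?_, ?_⟩
        · rw [hnb]; simp [hadj]
        · simp only [mem_filter, mem_univ, true_and]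
          exact ⟨hω1, hω2⟩
      exact_mod_cast this
    have h2 : ∀ u' ∈ nb, ((univ.filter (fun ω : V × Fin Q → Fin N × Fin N =>
          RR (AA Q ζ u) (g u * N) ω ∧ ¬ RR (AA Q ζ u') (g u' * N) ω)).card : ℝ)
        ≤ (g u * l1 ζ u u' + max (g u - g u') 0
          + ((4 * ((Q : ℝ) + b) ^ 2 + 3) / N + 4 * b / Q)) * M2 := by
      intro u' _
      have hU : (AA Q ζ u).card ≤ (AA Q ζ u ∪ AA Q ζ u').card :=
        card_le_card Finset.subset_union_left
      have hU' : (Q : ℝ) ≤ ((AA Q ζ u ∪ AA Q ζ u').card : ℝ) :=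
        (le_card_AA (Q := Q) hζ u).trans (by exact_mod_cast hU)
      have h3 := rr_pair (N := N) (AA Q ζ u) (AA Q ζ u') (hne u) (g u) (g u') (hg u).1 hN0
        (Q : ℝ) hQ' hU' (l1 ζ u u' * Q + 2 * b) (card_AA_symm_le hD hζ hr u u')
      refine h3.trans ?_
      apply mul_le_mul_of_nonneg_right _ hM20
      have hB : ((AA Q ζ u ∪ AA Q ζ u').card : ℝ) ≤ 2 * (Q + b) := by
        have := card_union_le (AA Q ζ u) (AA Q ζ u')
        have h4 : ((AA Q ζ u ∪ AA Q ζ u').card : ℝ)
            ≤ ((AA Q ζ u).card : ℝ) + ((AA Q ζ u').card : ℝ) := by exact_mod_cast this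
        have h5 := card_AA_le (Q := Q) hD hζ hr u
        have h6 := card_AA_le (Q := Q) hD hζ hr u'
        linarith
      have hB2 : ((AA Q ζ u ∪ AA Q ζ u').card : ℝ) ^ 2 / N ≤ 4 * (Q + b) ^ 2 / N := by
        apply div_le_div_of_nonneg_right _ hN'.le
        calc _ ≤ (2 * ((Q : ℝ) + b)) ^ 2 := pow_le_pow_left₀ (by positivity) hB 2
          _ = _ := by ring
      have hl1 := l1_le_two hζ u u'
      have hl0 := l1_nonneg' ζ u u'
      have hg1 := (hg u).2
      have hg0 := (hg u).1
      have hNinv : 1 / (N : ℝ) ≤ 1 := by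
        rw [div_le_one hN']; exact hN1
      have hNinv0 : 0 ≤ 1 / (N : ℝ) := by positivity
      have e1 : (l1 ζ u u' * Q + 2 * b) / Q * (g u + 1 / N)
          = g u * l1 ζ u u' + l1 ζ u u' * (1 / N) + 2 * b / Q * (g u + 1 / N) := by
        field_simp
      have e2 : l1 ζ u u' * (1 / N) ≤ 2 * (1 / N) := mul_le_mul_of_nonneg_right hl1 hNinv0
      have e3 : 2 * b / Q * (g u + 1 / N) ≤ 2 * b / Q * 2 := by
        apply mul_le_mul_of_nonneg_left _ (by positivity)
        linarith
      have e4 : (4 * ((Q : ℝ) + b) ^ 2 + 3) / N = 4 * (Q + b) ^ 2 / N + 3 * (1 / N) := by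
        ring
      have e5 : 4 * b / (Q : ℝ) = 2 * b / Q * 2 := by ring
      rw [e1, e4, e5]
      linarith
    have hnbc : (nb.card : ℝ) ≤ D := by exact_mod_cast hD u
    have hc0 : 0 ≤ (4 * ((Q : ℝ) + b) ^ 2 + 3) / N + 4 * b / Q := by positivity
    calc _ ≤ ∑ u' ∈ nb, ((univ.filter (fun ω : V × Fin Q → Fin N × Fin N =>
          RR (AA Q ζ u) (g u * N) ω ∧ ¬ RR (AA Q ζ u') (g u' * N) ω)).card : ℝ) := h1
      _ ≤ ∑ u' ∈ nb, (g u * l1 ζ u u' + max (g u - g u') 0
          + ((4 * ((Q : ℝ) + b) ^ 2 + 3) / N + 4 * b / Q)) * M2 := Finset.sum_le_sum h2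
      _ = (g u * var H ζ u + ∑ u' ∈ nb, max (g u - g u') 0
          + (nb.card : ℝ) * ((4 * ((Q : ℝ) + b) ^ 2 + 3) / N + 4 * b / Q)) * M2 := by
        rw [← Finset.sum_mul, Finset.sum_add_distrib, Finset.sum_add_distrib, Finset.sum_const,
          nsmul_eq_mul, ← Finset.mul_sum, var]
      _ ≤ (g u * var H ζ u + ∑ u' ∈ nb, max (g u - g u') 0 + e) * M2 := by
        apply mul_le_mul_of_nonneg_right _ hM20
        have : (nb.card : ℝ) * ((4 * ((Q : ℝ) + b) ^ 2 + 3) / N + 4 * b / Q)
            ≤ D * ((4 * ((Q : ℝ) + b) ^ 2 + 3) / N + 4 * b / Q) :=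
          mul_le_mul_of_nonneg_right hnbc hc0
        have e6 : (D : ℝ) * ((4 * ((Q : ℝ) + b) ^ 2 + 3) / N + 4 * b / Q)
            = D * (4 * ((Q : ℝ) + b) ^ 2 + 3) / N + 4 * D * b / Q := by ring
        linarith
  · intro u
    have h := rr_lower (N := N) (AA Q ζ u) (hne u) (g u * N) (by
      have := (hg u).2
      nlinarith) hN0
    have e1 : g u * N / N = g u := by field_simp
    rw [e1] at h
    exact h

end H25.ML
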